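import Pool.Agent.N325.DD.Stm

/-!
# Lower bounds of the limit by finite tables: definitions

An entry `(lo, hi, E, D)` describes, for all `q` with `lo ≤ q < hi`, the admissible set
`({s smooth : q / 3 < s ≤ q} \ D) ∪ E`.
-/

set_option autoImplicit false

namespace Pool.Agent.N325.DD

open Finset

/-- An entry `(lo, hi, E, D)`. -/
abbrev Ent := ℕ × ℕ × List ℕ × List ℕ

/-- The gain of an entry. -/
def gn (t : Ent) : ℕ := t.2.2.1.length - t.2.2.2.length

/-- Membership in a list of natural numbers (fast in the kernel). -/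
def mem' (x : ℕ) : List ℕ → Bool
  | [] => false
  | a :: l => Nat.beq a x || mem' x l

/-- Strictly increasing list (fast in the kernel). -/
def inc' : ℕ → List ℕ → Bool
  | _, [] => true
  | a, b :: l => Nat.blt a b && inc' b l

/-- `x` may be a member of the set of the entry for some `q`. -/
def pm (t : Ent) (x : ℕ) : Bool :=
  (Nat.blt x t.2.1 && (Nat.blt t.1 (3 * x) && !(mem' x t.2.2.2))) || mem' x t.2.2.1

/-- The number of `j` with `2 ≤ j ≤ k + 1` and `j * e` a possible member. -/
def cnt (t : Ent) (e : ℕ) : ℕ → ℕ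
  | 0 => 0
  | k + 1 => cond (pm t ((k + 2) * e)) (cnt t e k + 1) (cnt t e k)

/-- The conditions on one element `e` of the list `E`. -/
def chkE (K N : ℕ) (t : Ent) (e : ℕ) : Bool :=
  Nat.beq (N % e) 0 && (Nat.ble (3 * e) t.1 && (Nat.ble t.2.1 (K * e) &&
    Nat.ble (cnt t e (K - 2)) 1))

/-- All elements of a list satisfy `chkE`. -/
def chkL (K N : ℕ) (t : Ent) : List ℕ → Bool
  | [] => true
  | e :: l => chkE K N t e && chkL K N t l

/-- The conditions on an entry. -/
def chk (K N : ℕ) (t : Ent) : Bool :=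
  inc' 0 t.2.2.1 && chkL K N t t.2.2.1

/-- All entries of a table satisfy `chk` and they are sorted, the first one starting at `a` or
later. -/
def chkT (K N : ℕ) : ℕ → List Ent → Bool
  | _, [] => true
  | a, t :: T => Nat.ble a t.1 && (Nat.blt t.1 t.2.1 && (chk K N t && chkT K N t.2.1 T))

/-- The gain of the table at `q`. -/
def gT : List Ent → ℕ → ℕ
  | [], _ => 0
  | t :: T, q => if t.1 ≤ q ∧ q < t.2.1 then gn t else gT T q

/-- A lower bound of `M * ∑ gain * (1 / lo - 1 / hi)`, in natural numbers. -/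
def vT (M : ℕ) : List Ent → ℕ
  | [] => 0
  | t :: T => gn t * (M / t.1 - (M / t.2.1 + 1)) + vT M T

open Classical in
/-- The number of `K`-smooth `s ≤ n` with `q / 3 < s ≤ q`. -/
noncomputable def bq (K n q : ℕ) : ℕ := ((W K n).filter (fun s => s ≤ q ∧ q < 3 * s)).card

end Pool.Agent.N325.DD
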