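import Pool.Agent.N325.DD.LB

/-!
# Faster form of the check of a table (bit masks)
-/

set_option autoImplicit false

namespace Pool.Agent.N325.DD

/-- The bit mask of a list. -/
def mkM : List ℕ → ℕ
  | [] => 0
  | a :: l => Nat.lor (Nat.shiftLeft 1 a) (mkM l)

/-- A bit of a natural number. -/
def tb (m x : ℕ) : Bool := Nat.beq (Nat.land (Nat.shiftRight m x) 1) 1

theorem tb_eq (m x : ℕ) : tb m x = Nat.testBit m x := by
  have h1 : Nat.land (Nat.shiftRight m x) 1 = (m / 2 ^ x) % 2 := by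
    have : Nat.land (Nat.shiftRight m x) 1 = (m >>> x) &&& 1 := rfl
    rw [this, Nat.and_one_is_mod, Nat.shiftRight_eq_div_pow]
  unfold tb
  rw [h1, Nat.testBit_eq_decide_div_mod_eq]
  rcases Nat.mod_two_eq_zero_or_one (m / 2 ^ x) with h | h
  · rw [h]; rfl
  · rw [h]; rfl

theorem tb_mkM (l : List ℕ) (x : ℕ) : tb (mkM l) x = mem' x l := by
  induction l with
  | nil =>
    rw [tb_eq]
    simp [mkM, mem']
  | cons a l ih =>
    rw [tb_eq] at ih ⊢
    have h1 : mkM (a :: l) = (1 <<< a) ||| mkM l := rfl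
    rw [h1, Nat.testBit_or, ih, Nat.one_shiftLeft, Nat.testBit_two_pow]
    show (decide (a = x) || mem' x l) = (Nat.beq a x || mem' x l)
    congr 1
    by_cases h : a = x
    · subst h; simp
    · rw [decide_eq_false h]
      symm
      rw [Bool.eq_false_iff]
      intro h2
      exact h (Nat.eq_of_beq_eq_true h2)

/-- Fast form of `pm`. -/
def pmF (lo hi mE mD x : ℕ) : Bool :=
  (Nat.blt x hi && (Nat.blt lo (3 * x) && !(tb mD x))) || tb mE x

/-- Fast form of `cnt`. -/
def cntF (lo hi mE mD e : ℕ) : ℕ → ℕ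
  | 0 => 0
  | k + 1 => cond (pmF lo hi mE mD ((k + 2) * e)) (cntF lo hi mE mD e k + 1)
      (cntF lo hi mE mD e k)

/-- Fast form of `chkE`. -/
def chkEF (K N lo hi mE mD e : ℕ) : Bool :=
  Nat.beq (N % e) 0 && (Nat.ble (3 * e) lo && (Nat.ble hi (K * e) &&
    Nat.ble (cntF lo hi mE mD e (K - 2)) 1))

/-- Fast form of `chkL`. -/
def chkLF (K N lo hi mE mD : ℕ) : List ℕ → Bool
  | [] => true
  | e :: l => chkEF K N lo hi mE mD e && chkLF K N lo hi mE mD l

/-- Fast form of `chk`. -/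
def chkF (K N : ℕ) (t : Ent) : Bool :=
  inc' 0 t.2.2.1 && chkLF K N t.1 t.2.1 (mkM t.2.2.1) (mkM t.2.2.2) t.2.2.1

/-- Fast form of `chkT`. -/
def chkTF (K N : ℕ) : ℕ → List Ent → Bool
  | _, [] => true
  | a, t :: T => Nat.ble a t.1 && (Nat.blt t.1 t.2.1 && (chkF K N t && chkTF K N t.2.1 T))

theorem pmF_eq (t : Ent) (x : ℕ) : pmF t.1 t.2.1 (mkM t.2.2.1) (mkM t.2.2.2) x = pm t x := by
  unfold pmF pm
  rw [tb_mkM, tb_mkM]

theorem cntF_eq (t : Ent) (e k : ℕ) :
    cntF t.1 t.2.1 (mkM t.2.2.1) (mkM t.2.2.2) e k = cnt t e k := by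
  induction k with
  | zero => rfl
  | succ k ih => unfold cntF cnt; rw [pmF_eq, ih]

theorem chkLF_eq (K N : ℕ) (t : Ent) (l : List ℕ) :
    chkLF K N t.1 t.2.1 (mkM t.2.2.1) (mkM t.2.2.2) l = chkL K N t l := by
  induction l with
  | nil => rfl
  | cons e l ih => unfold chkLF chkL chkEF chkE; rw [cntF_eq, ih]

theorem chkTF_eq (K N : ℕ) (T : List Ent) : ∀ a : ℕ, chkTF K N a T = chkT K N a T := by
  induction T with
  | nil => intro a; rfl
  | cons t T ih =>
    intro a
    unfold chkTF chkT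
    rw [ih]
    have : chkF K N t = chk K N t := by
      unfold chkF chk
      rw [chkLF_eq]
    rw [this]

/-- Appending tables. -/
theorem chkT_append (K N : ℕ) (b : ℕ) (T' : List Ent) (hT' : chkT K N b T' = true) :
    ∀ (T : List Ent) (a : ℕ), chkT K N a T = true → a ≤ b → (∀ t ∈ T, t.2.1 ≤ b) →
      chkT K N a (T ++ T') = true := by
  intro T
  induction T with
  | nil =>
    intro a _ hab _
    cases T' with
    | nil => rfl
    | cons t T' =>
      simp only [List.nil_append]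
      unfold chkT at hT' ⊢
      rw [Bool.and_eq_true] at hT' ⊢
      refine ⟨?_, hT'.2⟩
      exact Nat.ble_eq_true_of_le (hab.trans (Nat.le_of_ble_eq_true hT'.1))
  | cons t T ih =>
    intro a h hab hb
    simp only [List.cons_append]
    unfold chkT at h ⊢
    simp only [Bool.and_eq_true] at h ⊢
    exact ⟨h.1, h.2.1, h.2.2.1, ih t.2.1 h.2.2.2 (hb t (List.mem_cons_self ..))
      (fun s hs => hb s (List.mem_cons_of_mem _ hs))⟩

theorem vT_append (M : ℕ) (T T' : List Ent) : vT M (T ++ T') = vT M T + vT M T' := by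
  induction T with
  | nil => simp [vT]
  | cons t T ih =>
    have h1 : vT M (t :: T ++ T') =
        gn t * (M / t.1 - (M / t.2.1 + 1)) + vT M (T ++ T') := rfl
    have h2 : vT M (t :: T) = gn t * (M / t.1 - (M / t.2.1 + 1)) + vT M T := rfl
    rw [h1, h2, ih]; omega

/-- All `hi` are at most `b`. -/
def hiT (b : ℕ) : List Ent → Bool
  | [] => true
  | t :: T => Nat.ble t.2.1 b && hiT b T

theorem hiT_spec (b : ℕ) (T : List Ent) (h : hiT b T = true) : ∀ t ∈ T, t.2.1 ≤ b := by
  induction T with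
  | nil => intro t ht; simp at ht
  | cons s T ih =>
    unfold hiT at h
    rw [Bool.and_eq_true] at h
    intro t ht
    rcases List.mem_cons.1 ht with rfl | ht
    · exact Nat.le_of_ble_eq_true h.1
    · exact ih h.2 t ht

end Pool.Agent.N325.DD
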