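import Pool.Agent.N325.DD.LB

/-!
# Lower bounds of the limit by finite tables: assembly
-/

set_option autoImplicit false

namespace Pool.Agent.N325.DD

open Finset Filter Topology

theorem kap_nonneg (K : ℕ) : 0 ≤ kap K := by
  unfold kap
  apply Finset.prod_nonneg
  intro p hp
  have h2 : 2 ≤ p := (Nat.prime_of_mem_primesBelow hp).two_le
  have h3 : (2 : ℝ) ≤ p := by exact_mod_cast h2
  have h4 : 1 / (p : ℝ) ≤ 1 := by
    rw [div_le_one (by linarith)]; linarith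
  linarith

theorem kap_six : kap 6 = 4 / 15 := by
  have h : Nat.primesBelow 6 = {2, 3, 5} := by decide
  unfold kap
  rw [h]
  norm_num [Finset.prod_insert]

theorem kap_eight : kap 8 = 8 / 35 := by
  have h : Nat.primesBelow 8 = {2, 3, 5, 7} := by decide
  unfold kap
  rw [h]
  norm_num [Finset.prod_insert]

theorem lower_bound
    (hA : ∀ K : ℕ, ∃ C : ℝ, ∀ y : ℕ, |((R K y).card : ℝ) - kap K * y| ≤ C)
    (hB : ∀ (K X : ℕ), 1 ≤ K → ∀ g : ℕ → ℕ, (∀ q, K * X ≤ q → g q = 0) →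
      (∃ C : ℝ, ∀ y : ℕ, |((R K y).card : ℝ) - kap K * y| ≤ C) →
      Tendsto (fun n : ℕ => (∑ m ∈ R K n, (g (n / m) : ℝ)) / n) atTop
        (𝓝 (kap K * ∑ q ∈ Finset.Icc 1 (K * X), (g q : ℝ) / ((q : ℝ) * (q + 1)))))
    (hC : ∀ K X n : ℕ, 2 ≤ K → ∑ m ∈ R K n, g K X (n / m) ≤ f n)
    (hsum : ∀ K n : ℕ, 1 ≤ K → n - n / 3 ≤ ∑ m ∈ R K n, bq K n (n / m))
    (K M : ℕ) (hK : 3 ≤ K) (T : List Ent)
    (hT : ∀ n q : ℕ, q ≤ n → bq K n q + gT T q ≤ g K n q)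
    (hV : ∃ X : ℕ, (∀ q, K * X ≤ q → gT T q = 0) ∧
      ((vT M T : ℕ) : ℝ) / M ≤ ∑ q ∈ Finset.Icc 1 (K * X), (gT T q : ℝ) / ((q : ℝ) * (q + 1)))
    (α : ℝ) (hα : Tendsto (fun n : ℕ => (f n : ℝ) / n) atTop (𝓝 α)) :
    2 / 3 + kap K * (((vT M T : ℕ) : ℝ) / M) ≤ α := by
  obtain ⟨X, hX0, hXv⟩ := hV
  have h1 := hB K X (by omega) (gT T) hX0 (hA K)
  have h2 : ∀ n : ℕ, (n - n / 3) + ∑ m ∈ R K n, gT T (n / m) ≤ f n := by
    intro n
    calc (n - n / 3) + ∑ m ∈ R K n, gT T (n / m)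
        ≤ ∑ m ∈ R K n, bq K n (n / m) + ∑ m ∈ R K n, gT T (n / m) :=
          Nat.add_le_add_right (hsum K n (by omega)) _
      _ = ∑ m ∈ R K n, (bq K n (n / m) + gT T (n / m)) := by rw [Finset.sum_add_distrib]
      _ ≤ ∑ m ∈ R K n, g K n (n / m) :=
          Finset.sum_le_sum (fun m _ => hT n (n / m) (Nat.div_le_self n m))
      _ ≤ f n := hC K n n (by omega)
  have h3 : ∀ᶠ n : ℕ in atTop,
      2 / 3 + (∑ m ∈ R K n, (gT T (n / m) : ℝ)) / n ≤ (f n : ℝ) / n := by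
    filter_upwards [eventually_ge_atTop 1] with n hn
    have hn0 : (0 : ℝ) < n := by exact_mod_cast hn
    have h4 : ((n - n / 3 : ℕ) : ℝ) + ∑ m ∈ R K n, (gT T (n / m) : ℝ) ≤ f n := by
      exact_mod_cast h2 n
    have h5 : (2 : ℝ) / 3 * n ≤ ((n - n / 3 : ℕ) : ℝ) := by
      have h6 : 2 * n ≤ 3 * (n - n / 3) := by omega
      have h7 : (2 : ℝ) * n ≤ 3 * ((n - n / 3 : ℕ) : ℝ) := by exact_mod_cast h6
      linarith
    rw [le_div_iff₀ hn0, add_mul, div_mul_cancel₀ _ hn0.ne']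
    linarith
  have h4 := le_of_tendsto_of_tendsto (tendsto_const_nhds.add h1) hα h3
  have h5 := mul_le_mul_of_nonneg_left hXv (kap_nonneg K)
  linarith

end Pool.Agent.N325.DD
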