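import Pool.Agent.N325.DD.Stm

/-!
# Assembly: `f(n) / n` converges
-/

set_option autoImplicit false

namespace Pool.Agent.N325.DD

open Finset Filter Topology

theorem main
    (hA : ∀ K : ℕ, ∃ C : ℝ, ∀ y : ℕ, |((R K y).card : ℝ) - kap K * y| ≤ C)
    (hB : ∀ (K X : ℕ), 1 ≤ K → ∀ g : ℕ → ℕ, (∀ q, K * X ≤ q → g q = 0) →
      (∃ C : ℝ, ∀ y : ℕ, |((R K y).card : ℝ) - kap K * y| ≤ C) →
      Tendsto (fun n : ℕ => (∑ m ∈ R K n, (g (n / m) : ℝ)) / n) atTop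
        (𝓝 (kap K * ∑ q ∈ Finset.Icc 1 (K * X), (g q : ℝ) / ((q : ℝ) * (q + 1)))))
    (hC : ∀ K X n : ℕ, 2 ≤ K → ∑ m ∈ R K n, g K X (n / m) ≤ f n)
    (hD : ∀ K X n : ℕ, 1 ≤ K → f n ≤ n / K + (Bad K X n).card + ∑ m ∈ R K n, g K X (n / m))
    (hE : ∀ K X : ℕ, (∃ C : ℝ, ∀ y : ℕ, |((R K y).card : ℝ) - kap K * y| ≤ C) →
      Tendsto (fun n : ℕ => ((Bad K X n).card : ℝ) / n) atTop (𝓝 (eps K X)))
    (hF : ∀ K : ℕ, Tendsto (fun X : ℕ => eps K X) atTop (𝓝 0)) :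
    ∃ α : ℝ, Tendsto (fun n : ℕ => (f n : ℝ) / n) atTop (𝓝 α) ∧
      (∀ K X : ℕ, 2 ≤ K → L K X ≤ α ∧ α ≤ L K X + 1 / K + eps K X) ∧
      (∀ K : ℕ, Tendsto (fun X : ℕ => eps K X) atTop (𝓝 0)) := by
  -- the two approximations
  have ha : ∀ K X : ℕ, 2 ≤ K →
      Tendsto (fun n : ℕ => (∑ m ∈ R K n, (g K X (n / m) : ℝ)) / n) atTop (𝓝 (L K X)) := by
    intro K X hK
    exact hB K X (by omega) (g K X) (fun q hq => g_eq_zero hq) (hA K)
  have hb : ∀ K X : ℕ, Tendsto (fun n : ℕ => ((Bad K X n).card : ℝ) / n) atTop (𝓝 (eps K X)) :=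
    fun K X => hE K X (hA K)
  have hlow : ∀ K X n : ℕ, 2 ≤ K →
      (∑ m ∈ R K n, (g K X (n / m) : ℝ)) / n ≤ (f n : ℝ) / n := by
    intro K X n hK
    apply div_le_div_of_nonneg_right _ (Nat.cast_nonneg n)
    exact_mod_cast hC K X n hK
  have hup : ∀ K X n : ℕ, 2 ≤ K → 1 ≤ n →
      (f n : ℝ) / n ≤ 1 / K + ((Bad K X n).card : ℝ) / n +
        (∑ m ∈ R K n, (g K X (n / m) : ℝ)) / n := by
    intro K X n hK hn
    have hn0 : (0 : ℝ) < n := by exact_mod_cast hn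
    have h1 : (f n : ℝ) ≤ ((n / K : ℕ) : ℝ) + ((Bad K X n).card : ℝ) +
        ∑ m ∈ R K n, (g K X (n / m) : ℝ) := by
      have := hD K X n (by omega)
      exact_mod_cast this
    have h2 : ((n / K : ℕ) : ℝ) ≤ (n : ℝ) / K := Nat.cast_div_le
    have h3 : 1 / (K : ℝ) = ((n : ℝ) / K) / n := by
      field_simp
    rw [h3, ← add_div, ← add_div]
    apply div_le_div_of_nonneg_right _ hn0.le
    linarith
  -- Cauchy
  have hcau : CauchySeq (fun n : ℕ => (f n : ℝ) / n) := by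
    rw [Metric.cauchySeq_iff']
    intro δ hδ
    set η : ℝ := δ / 10 with hη
    have hη0 : 0 < η := by positivity
    obtain ⟨K, hK⟩ := exists_nat_gt (1 / η)
    set K' := max K 2 with hK'
    have hK2 : 2 ≤ K' := le_max_right _ _
    have hK1 : 1 / (K' : ℝ) < η := by
      have h1 : 1 / η < (K' : ℝ) := lt_of_lt_of_le hK (by exact_mod_cast le_max_left K 2)
      rw [div_lt_iff₀ (by positivity)]
      rw [div_lt_iff₀ hη0] at h1
      linarith
    obtain ⟨X, hX⟩ := ((hF K').eventually (gt_mem_nhds hη0)).exists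
    have h1 := (ha K' X hK2).eventually (Ioo_mem_nhds (show L K' X - η < L K' X by linarith)
      (show L K' X < L K' X + η by linarith))
    have h2 := (hb K' X).eventually (gt_mem_nhds (show eps K' X < eps K' X + η by linarith))
    obtain ⟨N, hN⟩ := (h1.and (h2.and (eventually_ge_atTop 1))).exists_forall_of_atTop
    refine ⟨N, fun n hn => ?_⟩
    have key : ∀ n ≥ N, L K' X - η < (f n : ℝ) / n ∧ (f n : ℝ) / n < L K' X + 4 * η := by
      intro n hn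
      obtain ⟨⟨h3, h4⟩, h5, h6⟩ := hN n hn
      have h7 := hlow K' X n hK2
      have h8 := hup K' X n hK2 h6
      constructor
      · linarith
      · linarith
    obtain ⟨h3, h4⟩ := key n hn
    obtain ⟨h5, h6⟩ := key N le_rfl
    rw [Real.dist_eq, abs_lt]
    constructor <;> linarith
  obtain ⟨α, hα⟩ := cauchySeq_tendsto_of_complete hcau
  refine ⟨α, hα, fun K X hK => ⟨?_, ?_⟩, hF⟩
  · exact le_of_tendsto_of_tendsto' (ha K X hK) hα (fun n => hlow K X n hK)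
  · have h1 : Tendsto (fun n : ℕ => 1 / (K : ℝ) + ((Bad K X n).card : ℝ) / n +
        (∑ m ∈ R K n, (g K X (n / m) : ℝ)) / n) atTop (𝓝 (1 / (K : ℝ) + eps K X + L K X)) :=
      ((tendsto_const_nhds.add (hb K X)).add (ha K X hK))
    have h2 := le_of_tendsto_of_tendsto hα h1
      ((eventually_ge_atTop 1).mono (fun n hn => hup K X n hK hn))
    linarith

end Pool.Agent.N325.DD
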