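import Mathlib

/-!
# Sets in which no element divides two others: common definitions

The classes of `(n / K, n]` modulo multiplication by `K`-smooth numbers.
-/

set_option autoImplicit false

namespace Pool.Agent.N325.DD

open Finset

/-- No element divides two other elements. -/
def Adm (A : Finset ℕ) : Prop :=
  ∀ a ∈ A, ∀ b ∈ A, ∀ c ∈ A, a ≠ b → a ≠ c → b ≠ c → ¬ (a ∣ b ∧ a ∣ c)

open Classical in
/-- The largest cardinality of an admissible subset of the finite set `S`. -/
noncomputable def mx (S : Finset ℕ) : ℕ := (S.powerset.filter Adm).sup Finset.card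

/-- The largest cardinality of an admissible subset of `[1, n]`. -/
noncomputable def f (n : ℕ) : ℕ := mx (Finset.Icc 1 n)

open Classical in
/-- The integers of `[1, X]` all of whose prime factors are less than `K`. -/
noncomputable def W (K X : ℕ) : Finset ℕ :=
  (Finset.Icc 1 X).filter (fun s => ∀ p : ℕ, p.Prime → p ∣ s → p < K)

open Classical in
/-- The integers of `[1, n]` all of whose prime factors are at least `K`. -/
noncomputable def R (K n : ℕ) : Finset ℕ :=
  (Finset.Icc 1 n).filter (fun m => ∀ p : ℕ, p.Prime → p ∣ m → K ≤ p)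

/-- The largest cardinality of an admissible subset of the integers `s` of `[1, X]` with all prime
factors less than `K` and `q / K < s ≤ q`. -/
noncomputable def g (K X q : ℕ) : ℕ := mx ((W K X).filter (fun s => s ≤ q ∧ q < K * s))

/-- The density `∏_{p < K} (1 - 1 / p)` of the integers without prime factor less than `K`. -/
noncomputable def kap (K : ℕ) : ℝ := ∏ p ∈ Nat.primesBelow K, (1 - 1 / (p : ℝ))

/-- The main term. -/
noncomputable def L (K X : ℕ) : ℝ :=
  kap K * ∑ q ∈ Finset.Icc 1 (K * X), (g K X q : ℝ) / ((q : ℝ) * (q + 1))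

/-- The tail: the density of the integers whose largest divisor with all prime factors less than
`K` exceeds `X`. -/
noncomputable def eps (K X : ℕ) : ℝ := 1 - kap K * ∑ s ∈ W K X, 1 / (s : ℝ)

open Classical in
/-- The integers of `[1, n]` which are not of the form `m * s` with `m ∈ R K n`, `s ∈ W K X`. -/
noncomputable def Bad (K X n : ℕ) : Finset ℕ :=
  (Finset.Icc 1 n).filter (fun a => ¬ ∃ m ∈ R K n, ∃ s ∈ W K X, a = m * s)

theorem mem_W {K X s : ℕ} : s ∈ W K X ↔ (1 ≤ s ∧ s ≤ X) ∧ ∀ p : ℕ, p.Prime → p ∣ s → p < K := by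
  classical
  simp [W]

theorem mem_R {K n m : ℕ} : m ∈ R K n ↔ (1 ≤ m ∧ m ≤ n) ∧ ∀ p : ℕ, p.Prime → p ∣ m → K ≤ p := by
  classical
  simp [R]

theorem mem_Bad {K X n a : ℕ} : a ∈ Bad K X n ↔
    (1 ≤ a ∧ a ≤ n) ∧ ¬ ∃ m ∈ R K n, ∃ s ∈ W K X, a = m * s := by
  classical
  simp [Bad]

theorem Adm.mono {A B : Finset ℕ} (h : Adm B) (hAB : A ⊆ B) : Adm A :=
  fun a ha b hb c hc => h a (hAB ha) b (hAB hb) c (hAB hc)

theorem card_le_mx {A S : Finset ℕ} (hA : Adm A) (hS : A ⊆ S) : A.card ≤ mx S := by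
  classical
  unfold mx
  exact Finset.le_sup (f := Finset.card) (Finset.mem_filter.2 ⟨Finset.mem_powerset.2 hS, hA⟩)

theorem exists_mx (S : Finset ℕ) : ∃ A ⊆ S, Adm A ∧ A.card = mx S := by
  classical
  have hne : (S.powerset.filter Adm).Nonempty :=
    ⟨∅, Finset.mem_filter.2 ⟨Finset.empty_mem_powerset S, by intro a ha; simp at ha⟩⟩
  obtain ⟨A, hA, h⟩ := Finset.exists_mem_eq_sup (S.powerset.filter Adm) hne Finset.card
  rw [Finset.mem_filter, Finset.mem_powerset] at hA
  refine ⟨A, hA.1, hA.2, ?_⟩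
  unfold mx
  exact h.symm

theorem mx_mono {S T : Finset ℕ} (h : S ⊆ T) : mx S ≤ mx T := by
  obtain ⟨A, hA, hAd, hc⟩ := exists_mx S
  rw [← hc]
  exact card_le_mx hAd (hA.trans h)

/-- A number with all prime factors `≥ K` is coprime to a number with all prime factors `< K`. -/
theorem coprime_of {K m s : ℕ} (hm : ∀ p : ℕ, p.Prime → p ∣ m → K ≤ p)
    (hs : ∀ p : ℕ, p.Prime → p ∣ s → p < K) : Nat.Coprime m s := by
  rw [Nat.coprime_iff_gcd_eq_one]
  by_contra h
  obtain ⟨p, hp, hpd⟩ := Nat.exists_prime_and_dvd h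
  have h1 := hm p hp (hpd.trans (Nat.gcd_dvd_left _ _))
  have h2 := hs p hp (hpd.trans (Nat.gcd_dvd_right _ _))
  omega

/-- Uniqueness of the decomposition. -/
theorem unique_of {K m s m' s' : ℕ} (hm0 : 0 < m)
    (hm : ∀ p : ℕ, p.Prime → p ∣ m → K ≤ p) (hs : ∀ p : ℕ, p.Prime → p ∣ s → p < K)
    (hm' : ∀ p : ℕ, p.Prime → p ∣ m' → K ≤ p) (hs' : ∀ p : ℕ, p.Prime → p ∣ s' → p < K)
    (h : m * s = m' * s') : m = m' ∧ s = s' := by
  have h1 : m ∣ m' := (coprime_of hm hs').dvd_of_dvd_mul_right (h ▸ dvd_mul_right m s)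
  have h2 : m' ∣ m := (coprime_of hm' hs).dvd_of_dvd_mul_right (h ▸ dvd_mul_right m' s')
  have e : m = m' := Nat.dvd_antisymm h1 h2
  subst e
  exact ⟨rfl, Nat.eq_of_mul_eq_mul_left hm0 h⟩

theorem g_eq_zero {K X q : ℕ} (h : K * X ≤ q) : g K X q = 0 := by
  classical
  have : (W K X).filter (fun s => s ≤ q ∧ q < K * s) = ∅ := by
    ext s
    simp only [Finset.mem_filter, Finset.notMem_empty, iff_false]
    rintro ⟨h1, h2, h3⟩
    have := (mem_W.1 h1).1.2
    have : K * s ≤ K * X := Nat.mul_le_mul_left K this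
    omega
  unfold g
  rw [this]
  obtain ⟨A, hA, -, hc⟩ := exists_mx ∅
  rw [← hc, Finset.subset_empty.1 hA, Finset.card_empty]

end Pool.Agent.N325.DD
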