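import Pool.Agent.N325.DD.LBF
import Pool.Agent.N325.DD.Tab8a
import Pool.Agent.N325.DD.Tab8b
import Pool.Agent.N325.DD.Tab8c
import Pool.Agent.N325.DD.Tab8d

/-!
# The table for `K = 8`
-/

set_option autoImplicit false

namespace Pool.Agent.N325.DD

/-- The whole table for `K = 8`. -/
def tab8 : List Ent := tab8a ++ (tab8b ++ (tab8c ++ tab8d))

theorem tab8_chk : chkT 8 (210 ^ 17) 1 tab8 = true := by
  have ha : chkT 8 (210 ^ 17) 1 tab8a = true := by
    rw [← chkTF_eq]; exact tab8a_chk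
  have hb : chkT 8 (210 ^ 17) 10584 tab8b = true := by
    rw [← chkTF_eq]; exact tab8b_chk
  have hc : chkT 8 (210 ^ 17) 32256 tab8c = true := by
    rw [← chkTF_eq]; exact tab8c_chk
  have hd : chkT 8 (210 ^ 17) 60000 tab8d = true := by
    rw [← chkTF_eq]; exact tab8d_chk
  have h1 := chkT_append 8 (210 ^ 17) 60000 tab8d hd tab8c 32256 hc (by norm_num)
    (hiT_spec 60000 tab8c tab8c_hi)
  have h2 := chkT_append 8 (210 ^ 17) 32256 _ h1 tab8b 10584 hb (by norm_num)
    (hiT_spec 32256 tab8b tab8b_hi)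
  exact chkT_append 8 (210 ^ 17) 10584 _ h2 tab8a 1 ha (by norm_num)
    (hiT_spec 10584 tab8a tab8a_hi)

theorem tab8_val : 27362411005 ≤ vT 1000000000000 tab8 := by
  unfold tab8
  rw [vT_append, vT_append, vT_append]
  have ha := tab8a_val
  have hb := tab8b_val
  have hc := tab8c_val
  have hd := tab8d_val
  omega

end Pool.Agent.N325.DD
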