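import Pool.Agent.N325.DD.Stm

/-!
# Upper bounds of the limit from the classes modulo 2 and 3: definitions
-/

set_option autoImplicit false

namespace Pool.Agent.N325.DD

/-- The largest size of an admissible set of cells in the columns with the heights of the list
(processed from right to left), started in state `s`. -/
def V : List ℕ → ℕ → ℕ
  | [], _ => 0
  | h :: hs, s => max (V hs s) (max (if s / 2 < h then 1 + V hs (s + 1) else 0)
      (if s / 2 + 1 + s % 2 < h then 2 + V hs (s + 3 + s % 2) else 0))

/-- The heights are large enough: all `2 ^ i * 3 ^ j < hi` satisfy `j < h_i`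
(the head of the list is the height of the column `i = hs.length`). -/
def chkH (hi : ℕ) : List ℕ → Bool
  | [] => true
  | h :: hs => Nat.ble hi (2 ^ hs.length * 3 ^ h) && chkH hi hs

/-- The digit number `s` in base 64. -/
def dg (T s : ℕ) : ℕ := Nat.land (Nat.shiftRight T (6 * s)) 63

/-- New value of the table. -/
def nv (h T s : ℕ) : ℕ :=
  Nat.max (dg T s) (Nat.max (cond (Nat.blt (s / 2) h) (1 + dg T (s + 1)) 0)
    (cond (Nat.blt (s / 2 + 1 + s % 2) h) (2 + dg T (s + 3 + s % 2)) 0))

/-- The new table, digits `0, ..., k - 1`. -/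
def stp (h T : ℕ) : ℕ → ℕ
  | 0 => 0
  | k + 1 => stp h T k + Nat.shiftLeft (nv h T k) (6 * k)

/-- The table of the values `V hs s`, `s < n`, coded in one natural number. -/
def tabN (n : ℕ) : List ℕ → ℕ
  | [] => 0
  | h :: hs => stp h (tabN n hs) n

/-- An entry `(lo, hi, g, hs)`: for `lo ≤ q < hi` the class maximum is at most `g`. -/
abbrev EntU := ℕ × ℕ × ℕ × List ℕ

/-- All elements of a list are at most `b`. -/
def leL (b : ℕ) : List ℕ → Bool
  | [] => true
  | h :: hs => Nat.ble h b && leL b hs

/-- The check of an entry (heights at most 15, at most 31 columns). -/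
def chkU (t : EntU) : Bool :=
  Nat.ble t.2.1 (2 ^ t.2.2.2.length) && (chkH t.2.1 t.2.2.2 && (leL 15 t.2.2.2 &&
    (Nat.ble t.2.2.2.length 31 && Nat.ble (dg (tabN 30 t.2.2.2) 0) t.2.2.1)))

/-- The table is contiguous from `a` to `b` and all its entries satisfy `chkU`. -/
def chkUT : ℕ → ℕ → List EntU → Bool
  | a, b, [] => Nat.beq a b
  | a, b, t :: T => Nat.beq a t.1 && (Nat.blt t.1 t.2.1 && (chkU t && chkUT t.2.1 b T))

/-- The bound of the table at `q` (`0` outside). -/
def gU : List EntU → ℕ → ℕ
  | [], _ => 0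
  | t :: T, q => if t.1 ≤ q ∧ q < t.2.1 then t.2.2.1 else gU T q

/-- An upper bound of `M * ∑ g * (1 / lo - 1 / hi)`, in natural numbers. -/
def vU (M : ℕ) : List EntU → ℕ
  | [] => 0
  | t :: T => t.2.2.1 * (M / t.1 + 1 - M / t.2.1) + vU M T

end Pool.Agent.N325.DD
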