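import Pool.Agent.N325.DD.UB

/-!
# Upper bounds of the limit: assembly
-/

set_option autoImplicit false

namespace Pool.Agent.N325.DD

open Finset Filter Topology

theorem kap_four : kap 4 = 1 / 3 := by
  have h : Nat.primesBelow 4 = {2, 3} := by decide
  unfold kap
  rw [h]
  norm_num [Finset.prod_insert]

theorem upper_bound
    (hA : ∀ K : ℕ, ∃ C : ℝ, ∀ y : ℕ, |((R K y).card : ℝ) - kap K * y| ≤ C)
    (hB : ∀ (K X : ℕ), 1 ≤ K → ∀ g : ℕ → ℕ, (∀ q, K * X ≤ q → g q = 0) →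
      (∃ C : ℝ, ∀ y : ℕ, |((R K y).card : ℝ) - kap K * y| ≤ C) →
      Tendsto (fun n : ℕ => (∑ m ∈ R K n, (g (n / m) : ℝ)) / n) atTop
        (𝓝 (kap K * ∑ q ∈ Finset.Icc 1 (K * X), (g q : ℝ) / ((q : ℝ) * (q + 1)))))
    (hcu : ∀ n : ℕ, f n ≤ ∑ m ∈ R 4 n, mx (W 4 (n / m)))
    (hlog : ∀ q : ℕ, 1 ≤ q → mx (W 4 q) ≤ 2 * (Nat.log 3 q + 1))
    (htail : ∀ k0 n : ℕ, ((∑ m ∈ R 4 n,
      (if 3 ^ k0 ≤ n / m then 2 * (Nat.log 3 (n / m) + 1) else 0) : ℕ) : ℝ) ≤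
        2 * (k0 + 1) * ((R 4 (n / 3 ^ k0)).card : ℝ) + (n : ℝ) / 3 ^ k0)
    (gg : ℕ → ℕ) (k0 : ℕ) (v : ℝ)
    (hok : ∀ q : ℕ, 1 ≤ q → q < 3 ^ k0 → mx (W 4 q) ≤ gg q)
    (hzero : ∀ q : ℕ, 3 ^ k0 ≤ q → gg q = 0)
    (hval : ∀ X : ℕ, ∑ q ∈ Finset.Icc 1 X, (gg q : ℝ) / ((q : ℝ) * (q + 1)) ≤ v)
    (α : ℝ) (hα : Tendsto (fun n : ℕ => (f n : ℝ) / n) atTop (𝓝 α)) :
    α ≤ 1 / 3 * v + 2 * (k0 + 1) * (1 / 3 / 3 ^ k0) + 1 / 3 ^ k0 := by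
  obtain ⟨C, hC⟩ := hA 4
  have h1 := hB 4 (3 ^ k0) (by norm_num) gg (fun q hq => hzero q (by omega)) (hA 4)
  have h2 : ∀ n : ℕ, f n ≤ ∑ m ∈ R 4 n, gg (n / m) +
      ∑ m ∈ R 4 n, (if 3 ^ k0 ≤ n / m then 2 * (Nat.log 3 (n / m) + 1) else 0) := by
    intro n
    refine (hcu n).trans ?_
    rw [← Finset.sum_add_distrib]
    apply Finset.sum_le_sum
    intro m hm
    have hm1 := (mem_R.1 hm).1
    have hq : 1 ≤ n / m := (Nat.one_le_div_iff hm1.1).2 hm1.2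
    by_cases hc : 3 ^ k0 ≤ n / m
    · rw [if_pos hc]
      exact (hlog _ hq).trans (Nat.le_add_left _ _)
    · rw [if_neg hc]
      exact (hok _ hq (not_le.1 hc)).trans (Nat.le_add_right _ _)
  have h3pos : (0 : ℝ) < 3 ^ k0 := by positivity
  have h3 : ∀ᶠ n : ℕ in atTop, (f n : ℝ) / n ≤
      (∑ m ∈ R 4 n, (gg (n / m) : ℝ)) / n +
        (2 * (k0 + 1) * (1 / 3 / 3 ^ k0) + 2 * (k0 + 1) * C / n + 1 / 3 ^ k0) := by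
    filter_upwards [eventually_ge_atTop 1] with n hn
    have hn0 : (0 : ℝ) < n := by exact_mod_cast hn
    have h4 : (f n : ℝ) ≤ ∑ m ∈ R 4 n, (gg (n / m) : ℝ) + ((∑ m ∈ R 4 n,
        (if 3 ^ k0 ≤ n / m then 2 * (Nat.log 3 (n / m) + 1) else 0) : ℕ) : ℝ) := by
      have := h2 n
      have h5 : (f n : ℝ) ≤ ((∑ m ∈ R 4 n, gg (n / m) + ∑ m ∈ R 4 n,
        (if 3 ^ k0 ≤ n / m then 2 * (Nat.log 3 (n / m) + 1) else 0) : ℕ) : ℝ) := by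
        exact_mod_cast this
      rw [Nat.cast_add, Nat.cast_sum] at h5
      exact h5
    have h5 := htail k0 n
    have h6 : ((R 4 (n / 3 ^ k0)).card : ℝ) ≤ 1 / 3 * ((n : ℝ) / 3 ^ k0) + C := by
      have h7 := (abs_le.1 (hC (n / 3 ^ k0))).2
      rw [kap_four] at h7
      have h8 : ((n / 3 ^ k0 : ℕ) : ℝ) ≤ (n : ℝ) / 3 ^ k0 := by
        have := @Nat.cast_div_le ℝ _ _ _ n (3 ^ k0)
        simpa using this
      linarith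
    have h7 : 2 * ((k0 : ℝ) + 1) * ((R 4 (n / 3 ^ k0)).card : ℝ) ≤
        2 * ((k0 : ℝ) + 1) * (1 / 3 * ((n : ℝ) / 3 ^ k0) + C) :=
      mul_le_mul_of_nonneg_left h6 (by positivity)
    have h8 : (f n : ℝ) ≤ ∑ m ∈ R 4 n, (gg (n / m) : ℝ) +
        (2 * ((k0 : ℝ) + 1) * (1 / 3 * ((n : ℝ) / 3 ^ k0) + C) + (n : ℝ) / 3 ^ k0) := by
      linarith
    rw [div_le_iff₀ hn0]
    refine h8.trans (le_of_eq ?_)
    field_simp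
  have h4 : Tendsto (fun n : ℕ => (∑ m ∈ R 4 n, (gg (n / m) : ℝ)) / n +
      (2 * ((k0 : ℝ) + 1) * (1 / 3 / 3 ^ k0) + 2 * (k0 + 1) * C / n + 1 / 3 ^ k0)) atTop
      (𝓝 (kap 4 * ∑ q ∈ Finset.Icc 1 (4 * 3 ^ k0), (gg q : ℝ) / ((q : ℝ) * (q + 1)) +
        (2 * ((k0 : ℝ) + 1) * (1 / 3 / 3 ^ k0) + 0 + 1 / 3 ^ k0))) := by
    apply h1.add
    apply Tendsto.add _ tendsto_const_nhds
    apply tendsto_const_nhds.add
    exact tendsto_const_div_atTop_nhds_zero_nat _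
  have h5 := le_of_tendsto_of_tendsto hα h4 h3
  have h6 := hval (4 * 3 ^ k0)
  rw [kap_four] at h5
  linarith

end Pool.Agent.N325.DD
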